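import Mathlib
import Pool.Agent.Results.MP_70e04f_ag.Composition

set_option autoImplicit false

/-!
# `deg ^ 2 > ∑ mult ^ 2` for curves with grouped multiplicities at very general points

Let `P 1, …, P r` be very general points of the complex projective plane. A vector `w` of multiplicities
is `Grouped` if, apart from points of multiplicity `0` or `1`, the points form `k ≥ 46` groups, the group `j`
having multiplicities in `[a j, a j + t j]` and a number of conditions between `m (m + 1) / 2` and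
`(m + s) (m + s + 1) / 2`, where `Base k m s` and `Base (size j) (a j) (t j)` hold; the ratios of the
multiplicities of different groups are arbitrary. Every curve (irreducible or not) of degree `d` with
multiplicities at least `w i` at the points `P i`, where `w` is grouped, has `∑ w i ^ 2 < d ^ 2` and
`∑ w i ^ 2 + ∑ w i ≤ d ^ 2 + 3 d`.
-/

namespace Pool.Agent.Results.MP_3c72fe_ag.GroupedMultiplicities

open MvPolynomial

/-- The homogeneous ideal of the point `(p 0 : p 1 : 1)`. -/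
noncomputable def ptIdeal (p : Fin 2 → ℂ) : Ideal (MvPolynomial (Fin 3) ℂ) :=
  Ideal.span {X 0 - C (p 0) * X 2, X 1 - C (p 1) * X 2}

/-- `s ≤ 1` and `k ≥ 96` or `k = 4 ^ j`, `9 * 4 ^ j`, `13 * 4 ^ j`; or `s = 0` and `k = 21` or `k ≥ 37`; or
`1000 (s + 1) ≤ √k` and `1000000 (s + 1) ^ 3 ≤ m √k`. -/
def Base (k m s : ℕ) : Prop :=
  (s ≤ 1 ∧ (96 ≤ k ∨ ∃ j, k = 4 ^ j ∨ k = 9 * 4 ^ j ∨ k = 13 * 4 ^ j)) ∨
  (s = 0 ∧ (k = 21 ∨ 37 ≤ k)) ∨
  (1000 * ((s : ℝ) + 1) ≤ √(k : ℝ) ∧ 1000000 * ((s : ℝ) + 1) ^ 3 ≤ m * √(k : ℝ))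

/-- The number of conditions imposed by the points of the group `j`. -/
def conditions {r k : ℕ} (w : Fin r → ℕ) (g : Fin r → Option (Fin k)) (j : Fin k) : ℕ :=
  ∑ i ∈ Finset.univ.filter (fun i => g i = some j), (w i + 1).choose 2

/-- The number of points of the group `j`. -/
def size {r k : ℕ} (g : Fin r → Option (Fin k)) (j : Fin k) : ℕ :=
  (Finset.univ.filter fun i => g i = some j).card

/-- The point `i` belongs to the group `j` if `g i = some j`, and to no group if `g i = none`. -/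
def Grouped {r : ℕ} (w : Fin r → ℕ) : Prop :=
  ∃ (k m s : ℕ) (g : Fin r → Option (Fin k)) (a t : Fin k → ℕ), 46 ≤ k ∧ 1 ≤ m ∧ Base k m s ∧
    (∀ j, (m + 1).choose 2 ≤ conditions w g j ∧ conditions w g j ≤ (m + s + 1).choose 2) ∧
    (∀ j, 1 ≤ a j ∧ Base (size g j) (a j) (t j)) ∧
    (∀ i j, g i = some j → a j ≤ w i ∧ w i ≤ a j + t j) ∧
    ∀ i, g i = none → w i ≤ 1

/-- Forms of degree `d` vanishing to order at least `w i` at the points `(P i 0 : P i 1 : 1)`. -/
noncomputable def forms {n : ℕ} (P : Fin n → Fin 2 → ℂ) (d : ℕ) (w : Fin n → ℕ) :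
    Submodule ℂ (MvPolynomial (Fin 3) ℂ) :=
  homogeneousSubmodule (Fin 3) ℂ d ⊓
    Submodule.restrictScalars ℂ
      (⨅ i : Fin n, (Ideal.span {X 0 - C (P i 0) * X 2, X 1 - C (P i 1) * X 2} :
        Ideal (MvPolynomial (Fin 3) ℂ)) ^ (w i))

/-- no degree is special -/
def Never {n : ℕ} (w : Fin n → ℕ) : Prop :=
  ∃ F : MvPolynomial (Fin n × Fin 2) ℂ, F ≠ 0 ∧
    ∀ P : Fin n → Fin 2 → ℂ, eval (fun ij : Fin n × Fin 2 => P ij.1 ij.2) F ≠ 0 →
      ∀ d : ℕ, (Module.finrank ℂ ↥(forms P d w) : ℤ) =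
        max 0 (((d + 2).choose 2 : ℤ) - ∑ i, ((w i + 1).choose 2 : ℤ))

theorem sum_off {r n : ℕ} {M : Type*} [AddCommMonoid M] (e : Fin n → Fin r)
    (he : Function.Injective e) (f : Fin r → M) (h0 : ∀ i, i ∉ Set.range e → f i = 0) :
    ∑ i, f i = ∑ x, f (e x) := by
  classical
  rw [← Finset.sum_image (s := Finset.univ) (g := e) (f := f) (fun x _ y _ h => he h)]
  symm
  refine Finset.sum_subset (Finset.subset_univ _) fun i _ hi => h0 i ?_
  rintro ⟨x, rfl⟩
  exact hi (Finset.mem_image_of_mem _ (Finset.mem_univ _))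

theorem forms_off {r n : ℕ} (e : Fin n → Fin r) (w : Fin r → ℕ)
    (h0 : ∀ i, i ∉ Set.range e → w i = 0) (P : Fin r → Fin 2 → ℂ) (d : ℕ) :
    forms P d w = forms (fun x => P (e x)) d (fun x => w (e x)) := by
  unfold forms
  congr 2
  apply le_antisymm
  · exact le_iInf fun x => iInf_le _ (e x)
  · refine le_iInf fun i => ?_
    by_cases hi : i ∈ Set.range e
    · obtain ⟨x, rfl⟩ := hi
      exact iInf_le (fun x => (Ideal.span {X 0 - C (P (e x) 0) * X 2, X 1 - C (P (e x) 1) * X 2} :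
        Ideal (MvPolynomial (Fin 3) ℂ)) ^ (w (e x))) x
    · rw [h0 i hi, pow_zero, Ideal.one_eq_top]
      exact le_top

theorem never_off {r n : ℕ} (e : Fin n → Fin r) (he : Function.Injective e) (w : Fin r → ℕ)
    (h0 : ∀ i, i ∉ Set.range e → w i = 0) (h : Never fun x => w (e x)) : Never w := by
  obtain ⟨F, hF, hF'⟩ := h
  have hinj : Function.Injective (fun ij : Fin n × Fin 2 => (e ij.1, ij.2)) := by
    rintro ⟨x, a⟩ ⟨y, b⟩ hxy
    simp only [Prod.mk.injEq] at hxy
    rw [he hxy.1, hxy.2]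
  refine ⟨rename (fun ij : Fin n × Fin 2 => (e ij.1, ij.2)) F, ?_, fun P hP d => ?_⟩
  · intro h
    apply hF
    apply rename_injective _ hinj
    rw [h, map_zero]
  · rw [eval_rename] at hP
    have h1 := hF' (fun x => P (e x)) hP d
    rw [forms_off e w h0, h1, sum_off e he (fun i => ((w i + 1).choose 2 : ℤ))]
    intro i hi
    simp [h0 i hi]

theorem two_choose (x : ℕ) : (2 : ℤ) * ((x + 1).choose 2 : ℕ) = (x : ℤ) ^ 2 + x := by
  have h3 : (x + 1).choose 2 * 2 = (x + 1) * x := by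
    rw [Nat.choose_two_right]
    simpa using Nat.div_two_mul_two_of_even (Nat.even_mul_pred_self (x + 1))
  have h4 : (((x + 1).choose 2 : ℕ) : ℤ) * 2 = (x + 1) * x := by exact_mod_cast h3
  linarith

/-- The conclusion for one vector. -/
def Pos {n : ℕ} (w : Fin n → ℕ) (P : Fin n → Fin 2 → ℂ) : Prop :=
  ∀ (d : ℕ) (G : MvPolynomial (Fin 3) ℂ), G ≠ 0 → G ∈ forms P d w →
    ∑ i, w i ^ 2 < d ^ 2 ∧ ∑ i, w i ^ 2 + ∑ i, w i ≤ d ^ 2 + 3 * d

theorem pos_of {n : ℕ} {w : Fin n → ℕ} (h : Never w)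
    (hw : 9 * ∑ i, (w i : ℤ) ^ 2 < (∑ i, (w i : ℤ)) ^ 2) :
    ∃ F : MvPolynomial (Fin n × Fin 2) ℂ, F ≠ 0 ∧
      ∀ P : Fin n → Fin 2 → ℂ, eval (fun ij : Fin n × Fin 2 => P ij.1 ij.2) F ≠ 0 → Pos w P := by
  obtain ⟨F, hF, hF'⟩ := h
  refine ⟨F, hF, fun P hP d G hG hGm => ?_⟩
  have h1 := hF' P hP d
  have hfd : FiniteDimensional ℂ ↥(forms P d w) := by
    have : FiniteDimensional ℂ ↥(MvPolynomial.homogeneousSubmodule (Fin 3) ℂ d) :=
      Module.Finite.iff_fg.2 (MvPolynomial.homogeneousSubmodule_fg _ _ d)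
    exact Submodule.finiteDimensional_of_le (inf_le_left : forms P d w ≤ _)
  have hpos : 0 < Module.finrank ℂ ↥(forms P d w) := by
    rw [Module.finrank_pos_iff_exists_ne_zero]
    exact ⟨⟨G, hGm⟩, fun h0 => hG (congrArg Subtype.val h0)⟩
  have h2 : ∑ i, ((w i + 1).choose 2 : ℤ) + 1 ≤ ((d + 2).choose 2 : ℤ) := by
    by_contra hc
    rw [max_eq_left (by linarith)] at h1
    omega
  have h3 : (2 : ℤ) * ((d + 2).choose 2 : ℕ) = (d : ℤ) ^ 2 + 3 * d + 2 := by
    have := two_choose (d + 1)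
    push_cast at this ⊢
    linarith
  have h4 : 2 * ∑ i, ((w i + 1).choose 2 : ℤ) = ∑ i, (w i : ℤ) ^ 2 + ∑ i, (w i : ℤ) := by
    rw [Finset.mul_sum, ← Finset.sum_add_distrib]
    exact Finset.sum_congr rfl fun i _ => two_choose (w i)
  have h5 : ∑ i, (w i : ℤ) ^ 2 + ∑ i, (w i : ℤ) ≤ (d : ℤ) ^ 2 + 3 * d := by
    linarith
  have hS : 0 ≤ ∑ i, (w i : ℤ) := Finset.sum_nonneg fun i _ => by positivity
  have h8 : ∑ i, (w i : ℤ) ^ 2 < (d : ℤ) ^ 2 := by
    by_contra hc
    have h6 : ∑ i, (w i : ℤ) ≤ 3 * d := by linarith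
    have h7 : (∑ i, (w i : ℤ)) ^ 2 ≤ (3 * (d : ℤ)) ^ 2 := pow_le_pow_left₀ hS h6 2
    nlinarith
  exact ⟨by exact_mod_cast h8, by exact_mod_cast h5⟩

/-- The numerical inequality for grouped vectors. -/
theorem grouped_ineq {r k m s : ℕ} (w : Fin r → ℕ) (g : Fin r → Option (Fin k)) (hm : 1 ≤ m)
    (hB : Base k m s) (hr : 46 ≤ k)
    (hc : ∀ j, (m + 1).choose 2 ≤ conditions w g j ∧ conditions w g j ≤ (m + s + 1).choose 2)
    (h1 : ∀ i, g i = none → w i ≤ 1) :
    9 * ∑ i, (w i : ℤ) ^ 2 < (∑ i, (w i : ℤ)) ^ 2 := by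
  have hm' : (1 : ℤ) ≤ m := by exact_mod_cast hm
  have hs' : (0 : ℤ) ≤ s := by positivity
  have hr' : (46 : ℤ) ≤ k := by exact_mod_cast hr
  have key : ∀ j, (m : ℤ) ≤ ∑ i ∈ Finset.univ.filter (fun i => g i = some j), (w i : ℤ) ∧
      ∑ i ∈ Finset.univ.filter (fun i => g i = some j), (w i : ℤ) ^ 2 ≤ (m + s : ℤ) ^ 2 + s := by
    intro j
    obtain ⟨h1, h2⟩ := hc j
    have e1 : 2 * ((conditions w g j : ℕ) : ℤ) =
        ∑ i ∈ Finset.univ.filter (fun i => g i = some j), (w i : ℤ) ^ 2 +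
          ∑ i ∈ Finset.univ.filter (fun i => g i = some j), (w i : ℤ) := by
      unfold conditions
      push_cast
      rw [Finset.mul_sum, ← Finset.sum_add_distrib]
      exact Finset.sum_congr rfl fun i _ => two_choose (w i)
    have e2 := two_choose m
    have e3 := two_choose (m + s)
    have h1' : (((m + 1).choose 2 : ℕ) : ℤ) ≤ ((conditions w g j : ℕ) : ℤ) := by
      exact_mod_cast h1
    have h2' : ((conditions w g j : ℕ) : ℤ) ≤ (((m + s + 1).choose 2 : ℕ) : ℤ) := by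
      exact_mod_cast h2
    push_cast at e3
    have hq : ∑ i ∈ Finset.univ.filter (fun i => g i = some j), (w i : ℤ) ^ 2 ≤
        (∑ i ∈ Finset.univ.filter (fun i => g i = some j), (w i : ℤ)) ^ 2 :=
      Finset.sum_sq_le_sq_sum_of_nonneg fun i _ => by positivity
    have hS0 : 0 ≤ ∑ i ∈ Finset.univ.filter (fun i => g i = some j), (w i : ℤ) :=
      Finset.sum_nonneg fun i _ => by positivity
    have hmS : (m : ℤ) ≤ ∑ i ∈ Finset.univ.filter (fun i => g i = some j), (w i : ℤ) := by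
      by_contra hcon
      nlinarith
    exact ⟨hmS, by nlinarith⟩
  -- decomposition of the sums
  have dec : ∀ f : Fin r → ℤ, ∑ i, f i =
      ∑ i ∈ Finset.univ.filter (fun i => g i = none), f i +
        ∑ j, ∑ i ∈ Finset.univ.filter (fun i => g i = some j), f i := by
    intro f
    have h2 := Finset.sum_fiberwise (s := Finset.univ) (g := g) (f := f)
    rw [← h2, Fintype.sum_option]
  have hN : ∑ i ∈ Finset.univ.filter (fun i => g i = none), (w i : ℤ) ^ 2 =
      ∑ i ∈ Finset.univ.filter (fun i => g i = none), (w i : ℤ) := by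
    refine Finset.sum_congr rfl fun i hi => ?_
    have h2 := h1 i (Finset.mem_filter.1 hi).2
    have h3 : w i = 0 ∨ w i = 1 := by omega
    rcases h3 with h3 | h3 <;> rw [h3] <;> norm_num
  obtain ⟨N, hNe⟩ : ∃ N, N = ∑ i ∈ Finset.univ.filter (fun i => g i = none), (w i : ℤ) := ⟨_, rfl⟩
  have hN0 : 0 ≤ N := by rw [hNe]; exact Finset.sum_nonneg fun i _ => by positivity
  have hS : (k : ℤ) * m ≤ ∑ j, ∑ i ∈ Finset.univ.filter (fun i => g i = some j), (w i : ℤ) := by
    have h1 : ∑ _j : Fin k, (m : ℤ) ≤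
        ∑ j, ∑ i ∈ Finset.univ.filter (fun i => g i = some j), (w i : ℤ) :=
      Finset.sum_le_sum fun j _ => (key j).1
    simpa using h1
  have hQ : ∑ j, ∑ i ∈ Finset.univ.filter (fun i => g i = some j), (w i : ℤ) ^ 2 ≤
      k * ((m + s : ℤ) ^ 2 + s) := by
    have h1 : ∑ j, ∑ i ∈ Finset.univ.filter (fun i => g i = some j), (w i : ℤ) ^ 2 ≤
        ∑ _j : Fin k, ((m + s : ℤ) ^ 2 + s) := Finset.sum_le_sum fun j _ => (key j).2
    simpa using h1
  have hnum : 9 * ((m + s : ℤ) ^ 2 + s) < k * (m : ℤ) ^ 2 := by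
    rcases hB with ⟨h1, -⟩ | ⟨h1, -⟩ | ⟨h1, -⟩
    · have h2 : (s : ℤ) ≤ 1 := by exact_mod_cast h1
      nlinarith
    · subst h1
      push_cast
      nlinarith
    · have h2 : (1000 * ((s : ℝ) + 1)) ^ 2 ≤ k := by
        have h3 := pow_le_pow_left₀ (by positivity) h1 2
        rwa [Real.sq_sqrt (by positivity)] at h3
      have h3 : (1000000 : ℤ) * ((s : ℤ) + 1) ^ 2 ≤ k := by
        have h4 : (1000000 : ℝ) * ((s : ℝ) + 1) ^ 2 ≤ k := by linarith
        exact_mod_cast h4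
      have h4 : (m + s : ℤ) ≤ m * (s + 1) := by nlinarith
      have h5 : (m + s : ℤ) ^ 2 ≤ (m * (s + 1)) ^ 2 := pow_le_pow_left₀ (by positivity) h4 2
      have h6 : (m * (s + 1) : ℤ) ^ 2 = (m : ℤ) ^ 2 * (s + 1) ^ 2 := by ring
      have h7 : (1 : ℤ) ≤ (m : ℤ) ^ 2 := by nlinarith
      have h8 : (s : ℤ) ≤ (m : ℤ) ^ 2 * (s + 1) ^ 2 := by nlinarith
      have h9 : (1000000 : ℤ) * ((s : ℤ) + 1) ^ 2 * (m : ℤ) ^ 2 ≤ k * (m : ℤ) ^ 2 :=
        mul_le_mul_of_nonneg_right h3 (by positivity)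
      nlinarith
  rw [dec (fun i => (w i : ℤ) ^ 2), dec (fun i => (w i : ℤ)), hN, ← hNe]
  obtain ⟨A, hA⟩ : ∃ A, A = ∑ j, ∑ i ∈ Finset.univ.filter (fun i => g i = some j), (w i : ℤ) :=
    ⟨_, rfl⟩
  obtain ⟨B, hBe⟩ : ∃ B, B =
      ∑ j, ∑ i ∈ Finset.univ.filter (fun i => g i = some j), (w i : ℤ) ^ 2 := ⟨_, rfl⟩
  rw [← hA] at hS ⊢
  rw [← hBe] at hQ ⊢
  have hrm : (46 : ℤ) ≤ (k : ℤ) * m := by nlinarith
  have h2 : 9 * B < ((k : ℤ) * m) ^ 2 := by
    have h3 : (k : ℤ) * (9 * ((m + s : ℤ) ^ 2 + s)) < k * (k * (m : ℤ) ^ 2) :=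
      mul_lt_mul_of_pos_left hnum (by linarith)
    nlinarith
  have h3 : ((k : ℤ) * m) ^ 2 ≤ A ^ 2 := pow_le_pow_left₀ (by positivity) hS 2
  nlinarith

/-- Grouped vectors are special in no degree. -/
theorem grouped_never {r k m s : ℕ} (w : Fin r → ℕ) (g : Fin r → Option (Fin k)) (a t : Fin k → ℕ)
    (hm : 1 ≤ m) (hB : Base k m s)
    (hc : ∀ j, (m + 1).choose 2 ≤ conditions w g j ∧ conditions w g j ≤ (m + s + 1).choose 2)
    (ha : ∀ j, 1 ≤ a j ∧ Base (size g j) (a j) (t j))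
    (hw : ∀ i j, g i = some j → a j ≤ w i ∧ w i ≤ a j + t j)
    (h1 : ∀ i, g i = none → w i ≤ 1) : Never w := by
  classical
  obtain ⟨A, hA⟩ : ∃ A : Finset (Fin r), A = Finset.univ.filter (fun i => g i ≠ none) := ⟨_, rfl⟩
  obtain ⟨B, hBe⟩ : ∃ B : Finset (Fin r), B = Finset.univ.filter (fun i => g i = none ∧ w i = 1) :=
    ⟨_, rfl⟩
  have hmA : ∀ i, i ∈ A ↔ g i ≠ none := fun i => by rw [hA]; simp
  have hmB : ∀ i, i ∈ B ↔ (g i = none ∧ w i = 1) := fun i => by rw [hBe]; simp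
  let eA : Fin A.card → Fin r := fun x => (A.equivFin.symm x : Fin r)
  let eB : Fin B.card → Fin r := fun x => (B.equivFin.symm x : Fin r)
  have eAinj : Function.Injective eA := fun x y h => A.equivFin.symm.injective (Subtype.ext h)
  have eBinj : Function.Injective eB := fun x y h => B.equivFin.symm.injective (Subtype.ext h)
  have eAmem : ∀ x, eA x ∈ A := fun x => (A.equivFin.symm x).2
  have eBmem : ∀ x, eB x ∈ B := fun x => (B.equivFin.symm x).2
  have eAsurj : ∀ i ∈ A, ∃ x, eA x = i := fun i hi => ⟨A.equivFin ⟨i, hi⟩, by simp [eA]⟩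
  have eBsurj : ∀ i ∈ B, ∃ x, eB x = i := fun i hi => ⟨B.equivFin ⟨i, hi⟩, by simp [eB]⟩
  let e : Fin (A.card + B.card) → Fin r := Fin.append eA eB
  have einj : Function.Injective e := by
    intro x y hxy
    induction x using Fin.addCases with
    | left x =>
      induction y using Fin.addCases with
      | left y =>
        simp only [e, Fin.append_left] at hxy
        rw [eAinj hxy]
      | right y =>
        simp only [e, Fin.append_left, Fin.append_right] at hxy
        have h2 := (hmA _).1 (eAmem x)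
        have h3 := (hmB _).1 (eBmem y)
        rw [hxy] at h2
        exact absurd h3.1 h2
    | right x =>
      induction y using Fin.addCases with
      | left y =>
        simp only [e, Fin.append_left, Fin.append_right] at hxy
        have h2 := (hmA _).1 (eAmem y)
        have h3 := (hmB _).1 (eBmem x)
        rw [← hxy] at h2
        exact absurd h3.1 h2
      | right y =>
        simp only [e, Fin.append_right] at hxy
        rw [eBinj hxy]
  have hoff : ∀ i, i ∉ Set.range e → w i = 0 := by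
    intro i hi
    by_contra hne
    apply hi
    by_cases hg : g i = none
    · have h2 : w i = 1 := by have := h1 i hg; omega
      obtain ⟨x, hx⟩ := eBsurj i ((hmB i).2 ⟨hg, h2⟩)
      exact ⟨Fin.natAdd _ x, by simp only [e, Fin.append_right]; exact hx⟩
    · obtain ⟨x, hx⟩ := eAsurj i ((hmA i).2 hg)
      exact ⟨Fin.castAdd _ x, by simp only [e, Fin.append_left]; exact hx⟩
  refine never_off e einj w hoff ?_
  have hwe : (fun x => w (e x)) = Fin.append (fun x => w (eA x)) (fun _ : Fin B.card => 1) := by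
    funext x
    induction x using Fin.addCases with
    | left x => simp only [e, Fin.append_left]
    | right x =>
      simp only [e, Fin.append_right]
      exact ((hmB _).1 (eBmem x)).2
  rw [hwe]
  -- the groups
  have hex : ∀ x, ∃ j, g (eA x) = some j := fun x =>
    Option.ne_none_iff_exists'.1 ((hmA _).1 (eAmem x))
  choose g' hg' using hex
  have hiff : ∀ x j, g' x = j ↔ g (eA x) = some j := fun x j => by
    rw [hg' x, Option.some_inj]
  have hrange : ∀ i j, g i = some j → i ∈ Set.range eA := fun i j hij =>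
    eAsurj i ((hmA i).2 (by rw [hij]; simp))
  have hcond : ∀ j, Pool.Agent.Results.MP_70e04f_ag.Composition.conditions
      (Pool.Agent.Results.MP_70e04f_ag.Composition.group (fun x => w (eA x)) g' j) =
        conditions w g j := by
    intro j
    unfold Pool.Agent.Results.MP_70e04f_ag.Composition.conditions
      Pool.Agent.Results.MP_70e04f_ag.Composition.group conditions
    rw [Finset.sum_filter, sum_off eA eAinj (fun i => if g i = some j then (w i + 1).choose 2 else 0)]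
    · refine Finset.sum_congr rfl fun x _ => ?_
      by_cases hx : g' x = j
      · rw [if_pos hx, if_pos ((hiff x j).1 hx)]
      · rw [if_neg hx, if_neg (fun h => hx ((hiff x j).2 h))]
        simp
    · intro i hi
      rw [if_neg (fun h => hi (hrange i j h))]
  have hsize : ∀ j, Pool.Agent.Results.MP_70e04f_ag.Composition.size g' j = size g j := by
    intro j
    unfold Pool.Agent.Results.MP_70e04f_ag.Composition.size size
    rw [Finset.card_filter, Finset.card_filter,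
      sum_off eA eAinj (fun i => if g i = some j then 1 else 0)]
    · refine Finset.sum_congr rfl fun x _ => ?_
      by_cases hx : g' x = j
      · rw [if_pos hx, if_pos ((hiff x j).1 hx)]
      · rw [if_neg hx, if_neg (fun h => hx ((hiff x j).2 h))]
    · intro i hi
      rw [if_neg (fun h => hi (hrange i j h))]
  exact Pool.Agent.Results.MP_70e04f_ag.Composition.groups (fun x => w (eA x)) g' B.card hm hB
    (fun j => Or.inr ⟨a j, t j, (ha j).1, by rw [hsize]; exact (ha j).2,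
      fun x hx => hw (eA x) j ((hiff x j).1 hx)⟩) (fun j => by rw [hcond]; exact hc j)

/-- one hypersurface for every vector of multiplicities -/
theorem one {r : ℕ} (w : Fin r → ℕ) :
    ∃ F : MvPolynomial (Fin r × Fin 2) ℂ, F ≠ 0 ∧
      ∀ P : Fin r → Fin 2 → ℂ, eval (fun ij : Fin r × Fin 2 => P ij.1 ij.2) F ≠ 0 →
        Grouped w → Pos w P := by
  by_cases h' : Grouped w
  · obtain ⟨k, m, s, g, a, t, hk, hm, hB, hc, ha, hw, h1⟩ := h'
    obtain ⟨F, hF, hF'⟩ := pos_of (grouped_never w g a t hm hB hc ha hw h1)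
      (grouped_ineq w g hm hB hk hc h1)
    exact ⟨F, hF, fun P hP _ => hF' P hP⟩
  · exact ⟨1, one_ne_zero, fun P _ h'' => (h' h'').elim⟩

theorem result (r : ℕ) : ∃ F : ℕ → MvPolynomial (Fin r × Fin 2) ℂ, (∀ j, F j ≠ 0) ∧
    ∀ P : Fin r → Fin 2 → ℂ, (∀ j, eval (fun ij : Fin r × Fin 2 => P ij.1 ij.2) (F j) ≠ 0) →
      ∀ w : Fin r → ℕ, Grouped w →
        ∀ (d : ℕ) (G : MvPolynomial (Fin 3) ℂ), G ≠ 0 → G.IsHomogeneous d →
          (∀ i, G ∈ ptIdeal (P i) ^ w i) →
            ∑ i, w i ^ 2 < d ^ 2 ∧ ∑ i, w i ^ 2 + ∑ i, w i ≤ d ^ 2 + 3 * d := by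
  classical
  obtain ⟨f, hf⟩ := exists_surjective_nat (Fin r → ℕ)
  choose F hF hF' using fun w : Fin r → ℕ => one w
  refine ⟨fun j => F (f j), fun j => hF _, fun P hP w hw d G hG hGd hGm => ?_⟩
  obtain ⟨j, rfl⟩ := hf w
  refine hF' (f j) P (hP j) hw d G hG ?_
  unfold forms
  refine ⟨(mem_homogeneousSubmodule _ _).2 hGd, ?_⟩
  rw [SetLike.mem_coe, Submodule.restrictScalars_mem, Ideal.mem_iInf]
  exact hGm

end Pool.Agent.Results.MP_3c72fe_ag.GroupedMultiplicities
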